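import Pool.Agent.Lib.SmN.K.KThm
import Pool.Agent.Lib.SmNH.StmtsJ

/-!
HEIGHTS over SMITH-U (SmNH), counting half, block K+: almost all squarefree divisors are nice and
have many large primes of odd degree (`khthm`).
-/

set_option autoImplicit false

open Finset Filter

namespace Pool.Agent.SmN.PSys

variable {X : PSys} {q : ℕ}

/-- Large odd degree. -/
def PMaO (N d : ℕ) : Prop := N ≤ d ∧ Odd d

open Classical in
/-- The harmonic sum over the odd numbers. -/
theorem harm_odd (n : ℕ) (hn : 1 ≤ n) :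
    1 / 2 * (Real.log n - Real.log 2) ≤ ∑ d ∈ Icc 1 n with Odd d, 1 / (d : ℝ) := by
  have hn0 : (0 : ℝ) < n := by exact_mod_cast hn
  have h1 : ∑ e ∈ Icc 1 ((n + 1) / 2), 1 / ((2 * e - 1 : ℕ) : ℝ) ≤
      ∑ d ∈ Icc 1 n with Odd d, 1 / (d : ℝ) := by
    have hinj : Set.InjOn (fun e : ℕ => 2 * e - 1) (Icc 1 ((n + 1) / 2) : Finset ℕ) := by
      intro e he e' he' h
      rw [Finset.coe_Icc, Set.mem_Icc] at he he'
      have h' : 2 * e - 1 = 2 * e' - 1 := h
      omega
    rw [← sum_image (f := fun d : ℕ => 1 / (d : ℝ)) hinj]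
    refine sum_le_sum_of_subset_of_nonneg ?_ fun d _ _ => by positivity
    intro d hd
    rw [mem_image] at hd
    obtain ⟨e, he, rfl⟩ := hd
    rw [mem_Icc] at he
    rw [mem_filter, mem_Icc]
    refine ⟨⟨by omega, by omega⟩, ⟨e - 1, by omega⟩⟩
  refine le_trans ?_ h1
  have h2 : 1 / 2 * ∑ e ∈ Icc 1 ((n + 1) / 2), 1 / (e : ℝ) ≤
      ∑ e ∈ Icc 1 ((n + 1) / 2), 1 / ((2 * e - 1 : ℕ) : ℝ) := by
    rw [mul_sum]
    refine sum_le_sum fun e he => ?_
    rw [mem_Icc] at he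
    rw [one_div_mul_one_div]
    have h3 : (0 : ℝ) < ((2 * e - 1 : ℕ) : ℝ) := by
      exact_mod_cast (by omega : 0 < 2 * e - 1)
    refine one_div_le_one_div_of_le h3 ?_
    exact_mod_cast (by omega : 2 * e - 1 ≤ 2 * e)
  refine le_trans ?_ h2
  refine mul_le_mul_of_nonneg_left ?_ (by norm_num)
  refine le_trans ?_ (le_harm ((n + 1) / 2))
  rw [← Real.log_div hn0.ne' two_ne_zero]
  refine Real.log_le_log (by positivity) ?_
  rw [div_le_iff₀ two_pos]
  exact_mod_cast (by omega : n ≤ ((n + 1) / 2 + 1) * 2)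

/-- Too few large primes of odd degree. -/
def EOdd (c0 : ℝ) (n : ℕ) (D : Finset X.Pr) : Prop :=
  ¬ c0 * Real.log n ≤ Nat.card {P : X.Pr // P ∈ D ∧ (N0 n ≤ X.deg P ∧ Odd (X.deg P))}

/-- Not nice. -/
def EBadH (c0 δ : ℝ) (n : ℕ) (D : Finset X.Pr) : Prop := ¬ NiceNH X c0 δ n D

open Classical in
theorem odd_ev (hX : X.Ok q) (c0 : ℝ) (hc : c0 ≤ 1 / 8)
    (ε : ℝ) (hε : 0 < ε) : ∀ᶠ n : ℕ in atTop,
    (((Dn hX n).filter (EOdd c0 n)).card : ℝ) ≤ ε * (q : ℝ) ^ n := by
  obtain ⟨C, hC0, hC⟩ := hX.consts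
  have hl2 := Real.log_two_gt_d9
  have hl2' := Real.log_two_lt_d9
  set K := 2 * (1 + C) * Real.exp (1 + 4 * C) with hK
  have hK0 : 0 < K := by positivity
  have h1 := tend (1 / 4 * Real.log 2 + 1 / 2 + 2 * C) (3 / 2)
    (show (0 : ℝ) < 1 / 8 by norm_num)
  have h2 := h1.eventually_le_const (show 0 < ε / K by positivity)
  filter_upwards [h2, eventually_ge_atTop 1, one_le_log] with n hn hn1 hlog
  have hq := pow_pos hX.qpos n
  have h3 := rankin' hX hC0 hC (PMaO (N0 n)) (show (0 : ℝ) < 1 / 2 by norm_num)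
    (by norm_num) n hn1 (c0 * Real.log n)
    (EOdd c0 n)
    (fun D _ hD => by
      rw [← Real.rpow_natCast, cf]
      refine Real.rpow_le_rpow_of_exponent_ge (by norm_num) (by norm_num) ?_
      exact (not_le.1 hD).le)
  refine h3.trans ?_
  have h4 := (abs_le.1 (mertens hX hC0 hC n (PMaO (N0 n)))).1
  have h5 := harm_small n (N0 n)
  have h6 := log_N0_le hlog
  have h7 := harm_odd n hn1
  have h8 : ∑ d ∈ Icc 1 n with Odd d, 1 / (d : ℝ) ≤
      ∑ d ∈ Icc 1 n with PMaO (N0 n) d, 1 / (d : ℝ) +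
        ∑ d ∈ Icc 1 n with PSm (N0 n) d, 1 / (d : ℝ) := by
    have h9 : (Icc 1 n).filter (fun d => Odd d) ⊆ (Icc 1 n).filter (PMaO (N0 n)) ∪
        (Icc 1 n).filter (PSm (N0 n)) := by
      intro d hd
      rw [mem_filter] at hd
      rw [mem_union, mem_filter, mem_filter]
      rcases lt_or_ge d (N0 n) with h | h
      · exact Or.inr ⟨hd.1, h⟩
      · exact Or.inl ⟨hd.1, h, hd.2⟩
    have h10 : Disjoint ((Icc 1 n).filter (PMaO (N0 n)))
        ((Icc 1 n).filter (PSm (N0 n))) := by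
      rw [disjoint_left]
      intro d hd hd'
      rw [mem_filter] at hd hd'
      have h1 : N0 n ≤ d := hd.2.1
      have h2 : d < N0 n := hd'.2
      omega
    rw [← sum_union h10]
    exact sum_le_sum_of_subset_of_nonneg h9 fun d _ _ => by positivity
  set A := ∑ P ∈ Ple hX n with PMaO (N0 n) (X.deg P), 1 / (q : ℝ) ^ X.deg P with hA
  have hAl : 1 / 2 * (Real.log n - Real.log 2) - 1 - 3 * Real.log (Real.log n) - 4 * C ≤
      A := by linarith
  have h11 : c0 * Real.log n * Real.log 2 ≤ 1 / 8 * Real.log n := by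
    have h12 : c0 * Real.log n ≤ 1 / 8 * Real.log n :=
      mul_le_mul_of_nonneg_right hc (by linarith)
    have h13 : (0 : ℝ) ≤ 1 / 8 * Real.log n := by positivity
    nlinarith
  have h14 : Real.log (1 / 2 : ℝ) = - Real.log 2 := by rw [one_div, Real.log_inv]
  calc K * (q : ℝ) ^ n * Real.exp ((1 / 2 - 1) * A - c0 * Real.log n * Real.log (1 / 2))
      ≤ K * (q : ℝ) ^ n * (ε / K) := by
        refine mul_le_mul_of_nonneg_left (le_trans (Real.exp_le_exp.2 ?_) hn) (by positivity)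
        rw [h14]
        linarith
    _ = ε * (q : ℝ) ^ n := by
        field_simp

/-- **Block K+**: almost all squarefree divisors are nice and have many large primes of odd
degree. -/
theorem khthm (hX : X.Ok q) (c0 : ℝ) (hc : c0 ≤ 1 / 8) : KHThm X c0 := by
  classical
  intro ε δ hε hδ
  obtain ⟨c, hc0, n₁, hdd⟩ := hX.dd
  have h1 := kthm hX 1 le_rfl c0 (by push_cast; linarith) (ε / 2) δ (by positivity) hδ
  obtain ⟨n₂, h1⟩ := h1
  have h3 := odd_ev hX c0 hc (ε / 2 * c) (by positivity)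
  obtain ⟨n₃, h3⟩ := eventually_atTop.1 h3
  refine ⟨max n₁ (max n₂ n₃), fun n hn => ?_⟩
  have g1 := h1 n ((le_max_left _ _).trans ((le_max_right _ _).trans hn))
  have g3 := h3 n ((le_max_right _ _).trans ((le_max_right _ _).trans hn))
  have g5 := hdd n ((le_max_left _ _).trans hn)
  have hcard : Nat.card {D : Finset X.Pr // X.degS D = n ∧ ¬ NiceNH X c0 δ n D} =
      ((Dn hX n).filter (EBadH c0 δ n)).card := card_sub_eq hX n (EBadH c0 δ n)
  have hcard1 : Nat.card {D : Finset X.Pr // X.degS D = n ∧ ¬ NiceN X 1 c0 δ n D} =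
      ((Dn hX n).filter (EBad 1 c0 δ n)).card := card_sub_eq hX n (EBad 1 c0 δ n)
  rw [hcard]
  rw [hcard1] at g1
  have hsub : (Dn hX n).filter (EBadH c0 δ n) ⊆
      (Dn hX n).filter (EBad 1 c0 δ n) ∪ (Dn hX n).filter (EOdd c0 n) := by
    intro D hD
    rw [mem_filter] at hD
    by_contra hcon
    rw [mem_union, not_or, mem_filter, mem_filter] at hcon
    obtain ⟨k1, k2⟩ := hcon
    refine hD.2 ⟨?_, ?_⟩
    · by_contra h
      exact k1 ⟨hD.1, h⟩
    · by_contra h
      exact k2 ⟨hD.1, h⟩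
  have h6 := (card_le_card hsub).trans (card_union_le _ _)
  refine (Nat.cast_le (α := ℝ).2 h6).trans ?_
  push_cast
  have h8 := mul_le_mul_of_nonneg_left g5 (show 0 ≤ ε / 2 by positivity)
  linarith

end Pool.Agent.SmN.PSys
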